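import Pool.Agent.Helper787.Triod.Ratio

namespace Pool.Agent.Results.MP_613dde_gt.TriodRatios

open Set Pool.Agent.Helper787.Triod

/-- (1) Every planar simple triod satisfies `0 < s ≤ σ* ≤ σ` (`s` the symmetric span).
(2) If `σ* < σ`, then some leg and some level `r` with `σ* < r ≤ σ` have a disconnected set of
points at distance at least `r` from the junction.
(3) So `σ* = σ` if on each leg all these sets are connected.
(4) If the ratio `σ*/σ` of some planar simple triod is at most `t ≤ 1`, then `t` is the ratio of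
some planar simple triod.
(5) So the question is equivalent to its one-sided form. -/
theorem result :
    (∀ X : Set ℂ, IsSimpleTriod X → 0 < symSpan X ∧ symSpan X ≤ surjSpan X ∧
      surjSpan X ≤ Pool.Agent.Helper787.Triod.span X) ∧
    (∀ e : (Fin 3 → ℝ) → ℂ, ContinuousOn e T3 → InjOn e T3 →
      surjSpan (e '' T3) < Pool.Agent.Helper787.Triod.span (e '' T3) →
      ∃ (i : Fin 3) (r : ℝ), surjSpan (e '' T3) < r ∧
        r ≤ Pool.Agent.Helper787.Triod.span (e '' T3) ∧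
        ¬ IsPreconnected {t : ℝ | t ∈ Icc (0:ℝ) 1 ∧ r ≤ dist (e (Pi.single i t)) (e 0)}) ∧
    (∀ e : (Fin 3 → ℝ) → ℂ, ContinuousOn e T3 → InjOn e T3 →
      (∀ (i : Fin 3) (r : ℝ),
        IsPreconnected {t : ℝ | t ∈ Icc (0:ℝ) 1 ∧ r ≤ dist (e (Pi.single i t)) (e 0)}) →
      surjSpan (e '' T3) = Pool.Agent.Helper787.Triod.span (e '' T3)) ∧
    (∀ X : Set ℂ, IsSimpleTriod X → ∀ t : ℝ,
      surjSpan X / Pool.Agent.Helper787.Triod.span X ≤ t → t ≤ 1 →
      ∃ Y : Set ℂ, IsSimpleTriod Y ∧ surjSpan Y / Pool.Agent.Helper787.Triod.span Y = t) ∧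
    ((∀ t ∈ Ioo (1 / 2 : ℝ) 1, ∃ X : Set ℂ, IsSimpleTriod X ∧
        surjSpan X / Pool.Agent.Helper787.Triod.span X = t) ↔
      (∀ t ∈ Ioo (1 / 2 : ℝ) 1, ∃ X : Set ℂ, IsSimpleTriod X ∧
        surjSpan X / Pool.Agent.Helper787.Triod.span X ≤ t)) := by
  refine ⟨?_, gate_of_lt, all2, ratio_all, ?_⟩
  · rintro X ⟨e, he, hinj, rfl⟩
    exact pos_chain e he hinj
  · constructor
    · intro h t ht
      obtain ⟨X, hX, hXt⟩ := h t ht
      exact ⟨X, hX, hXt.le⟩
    · intro h t ht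
      obtain ⟨X, hX, hXt⟩ := h t ht
      exact ratio_all X hX t hXt ht.2.le

end Pool.Agent.Results.MP_613dde_gt.TriodRatios
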